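import Mathlib

/-!
# Non stationary phase on a line, by a shift of the contour
-/

set_option autoImplicit false

open MeasureTheory Set Filter Topology Complex Metric
open scoped Nat

namespace Pool.Agent.H27.L1.H87.GHK

/-- a primitive along a segment -/
theorem seg {f F : ℂ → ℂ} {p q : ℂ} {C : ℝ}
    (hF : ∀ t ∈ Icc (0 : ℝ) 1, HasDerivAt F (f (p + t * (q - p))) (p + t * (q - p)))
    (hb : ∀ t ∈ Icc (0 : ℝ) 1, ‖f (p + t * (q - p))‖ ≤ C) (hpq : ‖q - p‖ ≤ 2) :
    ‖F q - F p‖ ≤ 2 * C := by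
  have hg : ∀ t ∈ Icc (0 : ℝ) 1, HasDerivWithinAt (fun t : ℝ => F (p + t * (q - p)))
      (f (p + t * (q - p)) * (q - p)) (Icc (0 : ℝ) 1) t := by
    intro t ht
    have h1 : HasDerivAt (fun t : ℝ => p + (t : ℂ) * (q - p)) (q - p) t := by
      have := ((ofRealCLM.hasDerivAt (x := t)).mul_const (q - p)).const_add p
      simpa using this
    exact ((hF t ht).comp t h1).hasDerivWithinAt
  have hC : 0 ≤ C := (norm_nonneg _).trans (hb 0 (by simp))
  have h2 := norm_image_sub_le_of_norm_deriv_le_segment_01' (C := 2 * C) hg fun t ht => ?_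
  · simpa using h2
  · rw [norm_mul, mul_comm]
    exact mul_le_mul hpq (hb t ⟨ht.1, ht.2.le⟩) (norm_nonneg _) (by norm_num)

/-- `(1 + κ u) ^ A` against the exponential -/
theorem exp_bd (A : ℕ) {κ u : ℝ} (hκ : 0 ≤ κ) (hu : 0 ≤ u) (hu1 : u ≤ 1) :
    (4 * u) ^ A * Real.exp (-(3 / 4 * (κ * u))) ≤
      (4 ^ A * ((4 / 3) ^ A * (A ! * Real.exp (3 / 4)))) * ((1 + κ) ^ A)⁻¹ := by
  have h1 : 0 < (1 + κ) ^ A := by positivity
  rw [← div_eq_mul_inv, le_div_iff₀ h1]
  have h2 := Real.pow_div_factorial_le_exp (3 / 4 * (1 + κ * u)) (by positivity) A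
  have h3 : (1 + κ * u) ^ A ≤ (4 / 3) ^ A * (A ! * Real.exp (3 / 4 * (1 + κ * u))) := by
    rw [div_le_iff₀ (by positivity)] at h2
    have e : (1 + κ * u) ^ A = (4 / 3) ^ A * (3 / 4 * (1 + κ * u)) ^ A := by
      rw [← mul_pow]
      congr 1
      ring
    rw [e]
    refine mul_le_mul_of_nonneg_left ?_ (by positivity)
    linarith
  have h4 : (u + κ * u) ^ A ≤ (1 + κ * u) ^ A :=
    pow_le_pow_left₀ (by positivity) (by linarith) A
  have e1 : (4 * u) ^ A * Real.exp (-(3 / 4 * (κ * u))) * (1 + κ) ^ A =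
      4 ^ A * (u + κ * u) ^ A * Real.exp (-(3 / 4 * (κ * u))) := by
    rw [mul_right_comm, ← mul_pow, ← mul_pow]
    congr 2
    ring
  rw [e1]
  have e2 : 4 ^ A * ((4 / 3) ^ A * (A ! * Real.exp (3 / 4))) =
      4 ^ A * ((4 / 3) ^ A * (A ! * Real.exp (3 / 4 * (1 + κ * u)))) *
        Real.exp (-(3 / 4 * (κ * u))) := by
    have : Real.exp (3 / 4) = Real.exp (3 / 4 * (1 + κ * u)) * Real.exp (-(3 / 4 * (κ * u))) := by
      rw [← Real.exp_add]
      congr 1
      ring
    rw [this]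
    ring
  rw [e2]
  refine mul_le_mul_of_nonneg_right ?_ (Real.exp_pos _).le
  exact mul_le_mul_of_nonneg_left (h4.trans h3) (by positivity)

theorem lin (A : ℕ) : ∃ C : ℝ, 0 < C ∧ ∀ (sg R M kap : ℝ) (Bf Ps : ℂ → ℂ), 0 < sg → sg < R →
    sg ≤ 1 → DifferentiableOn ℂ Bf (ball 0 R) → DifferentiableOn ℂ Ps (ball 0 R) →
    (∀ s ∈ ball (0 : ℂ) R, ‖Bf s‖ ≤ M) → (∀ x : ℝ, |x| < R → (Ps x).im = 0) →
    (∀ s ∈ ball (0 : ℂ) R, ‖deriv Ps s - kap‖ ≤ |kap| / 4) →
    ‖∫ s in (-sg)..sg, ((sg : ℂ) ^ 2 - (s : ℂ) ^ 2) ^ A * Bf s * cexp (I * Ps s)‖ ≤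
      C * M * ((1 + |kap|) ^ A)⁻¹ := by
  set C0 : ℝ := 4 ^ A * ((4 / 3) ^ A * (A ! * Real.exp (3 / 4))) with hC0
  have hC0p : 0 < C0 := by positivity
  refine ⟨4 * C0, by positivity, ?_⟩
  intro sg R M kap Bf Ps hsg hR hsg1 hB hP hM hreal hder
  have h0 : (0 : ℂ) ∈ ball (0 : ℂ) R := by
    rw [mem_ball, dist_self]
    linarith
  have hM0 : 0 ≤ M := (norm_nonneg _).trans (hM 0 h0)
  set f : ℂ → ℂ := fun s => ((sg : ℂ) ^ 2 - s ^ 2) ^ A * Bf s * cexp (I * Ps s) with hf
  have hfd : DifferentiableOn ℂ f (ball 0 R) := by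
    have h1 : DifferentiableOn ℂ (fun s : ℂ => ((sg : ℂ) ^ 2 - s ^ 2) ^ A) (ball 0 R) := by
      fun_prop
    exact (h1.mul hB).mul ((hP.const_mul I).cexp)
  obtain ⟨F, hF⟩ := hfd.isExactOn_ball
  have hmem : ∀ {z : ℂ}, ‖z‖ ≤ sg → z ∈ ball (0 : ℂ) R := by
    intro z hz
    rw [mem_ball_zero_iff]
    linarith
  -- the integral as a difference of values of the primitive
  have hint : ∫ s in (-sg)..sg, f s = F sg - F (-sg : ℝ) := by
    have h1 : ∀ x ∈ uIcc (-sg) sg, HasDerivAt (fun s : ℝ => F s) (f x) x := by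
      intro x hx
      rw [uIcc_of_le (by linarith)] at hx
      have : (x : ℂ) ∈ ball (0 : ℂ) R := hmem (by
        rw [Complex.norm_real, Real.norm_eq_abs]
        exact abs_le.2 hx)
      exact (hF x this).comp_ofReal
    refine intervalIntegral.integral_eq_sub_of_hasDerivAt h1 ?_
    refine ContinuousOn.intervalIntegrable ?_
    refine hfd.continuousOn.comp Complex.continuous_ofReal.continuousOn fun x hx => ?_
    rw [uIcc_of_le (by linarith)] at hx
    exact hmem (by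
      rw [Complex.norm_real, Real.norm_eq_abs]
      exact abs_le.2 hx)
  show ‖∫ s in (-sg)..sg, f s‖ ≤ _
  rw [hint]
  -- the sign
  obtain ⟨ε, hε, hεk⟩ : ∃ ε : ℝ, |ε| = 1 ∧ ε * kap = |kap| := by
    rcases le_total 0 kap with h | h
    · exact ⟨1, abs_one, by rw [abs_of_nonneg h, one_mul]⟩
    · exact ⟨-1, by norm_num, by rw [abs_of_nonpos h]; ring⟩
  have hεε : ε * ε = 1 := by
    have := abs_mul_abs_self ε
    rw [hε] at this
    linarith
  -- the imaginary part of the phase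
  have him : ∀ x u : ℝ, 0 ≤ u → |x| + u ≤ sg →
      3 / 4 * (|kap| * u) ≤ (Ps (x + (ε * u : ℝ) * I)).im := by
    intro x u hu hxu
    have hx : (x : ℂ) ∈ ball (0 : ℂ) R := hmem (by
      rw [Complex.norm_real, Real.norm_eq_abs]
      linarith)
    have hyn : ‖((ε * u : ℝ) : ℂ) * I‖ = u := by
      rw [norm_mul, norm_I, mul_one, Complex.norm_real, Real.norm_eq_abs, abs_mul, hε, one_mul,
        abs_of_nonneg hu]
    have hz : (x : ℂ) + (ε * u : ℝ) * I ∈ ball (0 : ℂ) R := hmem (by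
      refine (norm_add_le _ _).trans ?_
      rw [hyn, Complex.norm_real, Real.norm_eq_abs]
      exact hxu)
    have h1 := (convex_ball (0 : ℂ) R).norm_image_sub_le_of_norm_deriv_le
      (f := fun s => Ps s - kap * s) (C := |kap| / 4) (fun s hs => ?_) (fun s hs => ?_) hx hz
    rotate_left
    · exact (hP.differentiableAt (isOpen_ball.mem_nhds hs)).sub
        (differentiableAt_id.const_mul (kap : ℂ))
    · have h2 : HasDerivAt (fun s => Ps s - kap * s) (deriv Ps s - kap * 1) s :=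
        (hP.differentiableAt (isOpen_ball.mem_nhds hs)).hasDerivAt.sub
          ((hasDerivAt_id s).const_mul (kap : ℂ))
      rw [h2.deriv, mul_one]
      exact hder s hs
    have e1 : Ps (x + (ε * u : ℝ) * I) - kap * (x + (ε * u : ℝ) * I) - (Ps x - kap * x) =
        (Ps (x + (ε * u : ℝ) * I) - Ps x) - kap * ((ε * u : ℝ) * I) := by ring
    have e2 : (x : ℂ) + (ε * u : ℝ) * I - x = (ε * u : ℝ) * I := by ring
    rw [e1, e2, hyn] at h1
    have h2 := (abs_im_le_norm _).trans h1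
    have h3 : ((Ps (x + (ε * u : ℝ) * I) - Ps x) - kap * ((ε * u : ℝ) * I)).im =
        (Ps (x + (ε * u : ℝ) * I)).im - |kap| * u := by
      have h4 : (Ps x).im = 0 := hreal x (by linarith)
      have h5 : ((kap : ℂ) * ((ε * u : ℝ) * I)).im = |kap| * u := by
        rw [← hεk]
        simp
        ring
      rw [sub_im, sub_im, h4, h5, sub_zero]
    rw [h3] at h2
    have h6 := (abs_le.1 h2).1
    linarith
  -- the bound on the two segments
  have hmain : ∀ a : ℝ, |a| = 1 → ‖F ((ε * sg : ℝ) * I) - F ((a * sg : ℝ))‖ ≤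
      2 * (C0 * M * ((1 + |kap|) ^ A)⁻¹) := by
    intro a ha
    have haa : a * a = 1 := by
      have := abs_mul_abs_self a
      rw [ha] at this
      linarith
    have hpt : ∀ t : ℝ, ((a * sg : ℝ) : ℂ) + t * ((ε * sg : ℝ) * I - (a * sg : ℝ)) =
        ((a * (1 - t) * sg : ℝ) : ℂ) + (ε * (t * sg) : ℝ) * I := by
      intro t
      push_cast
      ring
    have hsize : ∀ t ∈ Icc (0 : ℝ) 1, |a * (1 - t) * sg| + t * sg ≤ sg := by
      intro t ht
      rw [abs_mul, abs_mul, ha, one_mul, abs_of_nonneg (sub_nonneg.2 ht.2), abs_of_pos hsg]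
      linarith
    have hnorm : ∀ t ∈ Icc (0 : ℝ) 1,
        ‖((a * (1 - t) * sg : ℝ) : ℂ) + (ε * (t * sg) : ℝ) * I‖ ≤ sg := by
      intro t ht
      refine (norm_add_le _ _).trans ?_
      rw [norm_mul, norm_I, mul_one, Complex.norm_real, Complex.norm_real, Real.norm_eq_abs,
        Real.norm_eq_abs, abs_mul ε, hε, one_mul, abs_of_nonneg (mul_nonneg ht.1 hsg.le)]
      exact hsize t ht
    have hqp : ‖((ε * sg : ℝ) : ℂ) * I - (a * sg : ℝ)‖ ≤ 2 * sg := by
      refine (norm_sub_le _ _).trans ?_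
      rw [norm_mul, norm_I, mul_one, Complex.norm_real, Complex.norm_real, Real.norm_eq_abs,
        Real.norm_eq_abs, abs_mul, abs_mul, hε, ha, abs_of_pos hsg]
      linarith
    refine seg (f := f) (fun t ht => ?_) (fun t ht => ?_) (hqp.trans (by linarith))
    · refine hF _ ?_
      rw [hpt]
      exact hmem (hnorm t ht)
    · have hu : 0 ≤ t * sg := mul_nonneg ht.1 hsg.le
      have hu1 : t * sg ≤ 1 := (mul_le_of_le_one_left hsg.le ht.2).trans hsg1
      set s : ℂ := ((a * sg : ℝ) : ℂ) + t * ((ε * sg : ℝ) * I - (a * sg : ℝ)) with hs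
      have hs' : s = ((a * (1 - t) * sg : ℝ) : ℂ) + (ε * (t * sg) : ℝ) * I := hpt t
      have hsn : ‖s‖ ≤ sg := by
        rw [hs']
        exact hnorm t ht
      have g1 : ‖(sg : ℂ) ^ 2 - s ^ 2‖ ≤ 4 * (t * sg) := by
        have e : (sg : ℂ) ^ 2 - s ^ 2 = -(s - (a * sg : ℝ)) * (s + (a * sg : ℝ)) := by
          have h1 : ((a * sg : ℝ) : ℂ) ^ 2 = (sg : ℂ) ^ 2 := by
            have : (a * sg) ^ 2 = sg ^ 2 := by
              rw [mul_pow, pow_two a, haa, one_mul]
            exact_mod_cast this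
          rw [← h1]
          ring
        rw [e, norm_mul, norm_neg]
        have h1 : ‖s - (a * sg : ℝ)‖ ≤ 2 * (t * sg) := by
          have : s - (a * sg : ℝ) = t * ((ε * sg : ℝ) * I - (a * sg : ℝ)) := by
            rw [hs]
            ring
          rw [this, norm_mul, Complex.norm_real, Real.norm_of_nonneg ht.1]
          calc t * ‖((ε * sg : ℝ) : ℂ) * I - (a * sg : ℝ)‖ ≤ t * (2 * sg) :=
                mul_le_mul_of_nonneg_left hqp ht.1
            _ = 2 * (t * sg) := by ring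
        have h2 : ‖s + (a * sg : ℝ)‖ ≤ 2 := by
          refine (norm_add_le _ _).trans ?_
          rw [Complex.norm_real, Real.norm_eq_abs, abs_mul, ha, one_mul, abs_of_pos hsg]
          linarith
        calc ‖s - (a * sg : ℝ)‖ * ‖s + (a * sg : ℝ)‖ ≤ 2 * (t * sg) * 2 :=
              mul_le_mul h1 h2 (norm_nonneg _) (by positivity)
          _ = 4 * (t * sg) := by ring
      have g2 : ‖cexp (I * Ps s)‖ ≤ Real.exp (-(3 / 4 * (|kap| * (t * sg)))) := by
        rw [norm_exp]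
        have : (I * Ps s).re = -(Ps s).im := by simp
        rw [this]
        refine Real.exp_le_exp.2 (neg_le_neg ?_)
        rw [hs']
        exact him _ _ hu (hsize t ht)
      have g3 := exp_bd A (abs_nonneg kap) hu hu1
      rw [← hC0] at g3
      show ‖((sg : ℂ) ^ 2 - s ^ 2) ^ A * Bf s * cexp (I * Ps s)‖ ≤ _
      rw [norm_mul, norm_mul, norm_pow]
      calc ‖(sg : ℂ) ^ 2 - s ^ 2‖ ^ A * ‖Bf s‖ * ‖cexp (I * Ps s)‖
          ≤ (4 * (t * sg)) ^ A * M * Real.exp (-(3 / 4 * (|kap| * (t * sg)))) := by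
            have hMs := hM s (hmem hsn)
            gcongr
        _ = M * ((4 * (t * sg)) ^ A * Real.exp (-(3 / 4 * (|kap| * (t * sg))))) := by ring
        _ ≤ M * (C0 * ((1 + |kap|) ^ A)⁻¹) := mul_le_mul_of_nonneg_left g3 hM0
        _ = C0 * M * ((1 + |kap|) ^ A)⁻¹ := by ring
  have h1 := hmain 1 abs_one
  have h2 := hmain (-1) (by norm_num)
  rw [one_mul] at h1
  rw [neg_one_mul] at h2
  have e : F sg - F (-sg : ℝ) = (F ((ε * sg : ℝ) * I) - F (-sg : ℝ)) -
      (F ((ε * sg : ℝ) * I) - F sg) := by ring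
  rw [e]
  refine (norm_sub_le _ _).trans ?_
  linarith

end Pool.Agent.H27.L1.H87.GHK
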