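import Pool.Agent.H27.L1.H87.GHK.JKL
import Pool.Agent.H27.L1.H14.GHK.PWR
import Pool.Agent.H27.L1.H68.GHK.Defs

/-!
# The oscillating integral of two power functions with the polynomial cutoff
-/

set_option autoImplicit false

namespace Pool.Agent.H27.L1.H87.GHK.JK

open MeasureTheory Matrix Complex
open Pool.Agent.H27.L1.H34.GM
open Pool.Agent.H27.L1.H40.GHK (Flg fsq fsq_nonneg fub grd_pos)
open Pool.Agent.H27.L1.H14.GHK (Ep Dp ex ex_lt ex_top ex_sub Ep_symm Ep_nest Ep_idem Ep_full Ep_le Dp_full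
  Dp_pos pw_div)
open Pool.Agent.H27.L1.H68.GHK (EP Gg)
open Pool.Agent.H27.L1.H16.GHK (us)

/-- the cutoff -/
noncomputable def ct (m A : ℕ) (r : ℝ) (z : V m) : ℝ :=
  if fsq (mt z - 1) < r ^ 2 then (1 - fsq (mt z - 1) / r ^ 2) ^ A else 0

lemma fsq_line {m : ℕ} (Y : Fin m → Fin m → ℝ) (a b : Fin m) (h : Y a b = 0) (s : ℝ) :
    fsq (Y + s • Pool.Agent.H27.L1.H40.GHK.eab a b) = fsq Y + s ^ 2 := by
  have h1 : ∀ i j, (Y + s • Pool.Agent.H27.L1.H40.GHK.eab a b) i j ^ 2 =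
      Y i j ^ 2 + (if i = a then (if j = b then s ^ 2 else 0) else 0) := by
    intro i j
    have h2 : (Y + s • Pool.Agent.H27.L1.H40.GHK.eab a b) i j =
        Y i j + s * (if i = a ∧ j = b then 1 else 0) := rfl
    rw [h2]
    by_cases hi : i = a
    · by_cases hj : j = b
      · rw [hi, hj, h]
        simp
      · simp [hi, hj]
    · simp [hi]
  unfold fsq
  simp only [h1, Finset.sum_add_distrib]
  congr 1
  simp

lemma exists_ab {m : ℕ} (hm : 1 ≤ m) (D : Matrix (Fin m) (Fin m) ℝ) :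
    ∃ a b, Real.sqrt (fsq D) ≤ m * |D a b| := by
  have : Nonempty (Fin m) := ⟨⟨0, hm⟩⟩
  obtain ⟨⟨a, b⟩, -, h⟩ := Finset.exists_max_image (Finset.univ : Finset (Fin m × Fin m))
    (fun p => |D p.1 p.2|) Finset.univ_nonempty
  refine ⟨a, b, ?_⟩
  rw [Real.sqrt_le_left (by positivity)]
  have h1 : ∀ i j, D i j ^ 2 ≤ |D a b| ^ 2 := fun i j => by
    have := h (i, j) (Finset.mem_univ _)
    simp only at this
    rw [← sq_abs (D i j)]
    exact pow_le_pow_left₀ (abs_nonneg _) this 2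
  calc fsq D ≤ ∑ _i : Fin m, ∑ _j : Fin m, |D a b| ^ 2 :=
        Finset.sum_le_sum fun i _ => Finset.sum_le_sum fun j _ => h1 i j
    _ = (m * |D a b|) ^ 2 := by
        rw [Finset.sum_const, Finset.sum_const, Finset.card_univ, Fintype.card_fin, nsmul_eq_mul,
          nsmul_eq_mul]
        ring

lemma sz_le_fsq {m : ℕ} (D : Mat m) : sz D ≤ Real.sqrt (fsq D) := by
  unfold sz
  refine (pi_norm_le_iff_of_nonneg (Real.sqrt_nonneg _)).2 fun i => ?_
  refine (pi_norm_le_iff_of_nonneg (Real.sqrt_nonneg _)).2 fun j => ?_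
  rw [Real.norm_eq_abs]
  refine Real.le_sqrt_of_sq_le ?_
  rw [sq_abs]
  have h1 : D i j ^ 2 ≤ ∑ j, D i j ^ 2 :=
    Finset.single_le_sum (f := fun j => D i j ^ 2) (fun j _ => sq_nonneg _) (Finset.mem_univ j)
  exact h1.trans (Finset.single_le_sum (f := fun i => ∑ j, D i j ^ 2)
    (fun i _ => Finset.sum_nonneg fun j _ => sq_nonneg _) (Finset.mem_univ i))

lemma flg_Ep {m : ℕ} {w : Mat m} (hw : w.det ≠ 0) : Flg fun j => Ep w (min (j + 1) m) := by
  refine ⟨fun j => ⟨Ep_symm _ _, Ep_idem hw (min_le_right _ _)⟩, fun i j hij => ?_⟩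
  exact Ep_nest hw (min_le_min_right m (by omega)) (min_le_right _ _)

/-- the gaps -/
noncomputable def bb {m : ℕ} (mu : Fin m → ℂ) (j : ℕ) : ℝ :=
  if j + 1 < m then (ex mu j - ex mu (j + 1)).im else 0

lemma bb_eq {m : ℕ} (mu : Fin m → ℂ) {j : ℕ} (h : j + 1 < m) :
    bb mu j = ((mu ⟨j + 1, h⟩).im - (mu ⟨j, by omega⟩).im) / 2 := by
  unfold bb
  rw [if_pos h, ex_sub mu h]
  simp

lemma bb_nonneg {m : ℕ} {mu : Fin m → ℂ} (h : Monotone fun j => (mu j).im) (j : ℕ) :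
    0 ≤ bb mu j := by
  by_cases hj : j + 1 < m
  · rw [bb_eq mu hj]
    have h1 : (mu ⟨j, by omega⟩).im ≤ (mu ⟨j + 1, hj⟩).im :=
      h (a := ⟨j, by omega⟩) (b := ⟨j + 1, hj⟩) (by rw [Fin.le_def]; simp)
    linarith
  · unfold bb
    rw [if_neg hj]

lemma ex_re {m : ℕ} {mu : Fin m → ℂ} {M : ℝ} (h : ∀ j, |(mu j).re| ≤ M) (hM : 0 ≤ M) (j : ℕ) :
    |(ex mu j).re| ≤ (M + m + 1) / 2 := by
  unfold ex
  split_ifs with hj
  · have h1 : ((-(mu ⟨j, hj⟩) + (2 * ((j : ℕ) + 1 : ℂ) - m - 1) / 2) / 2).re =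
        (-(mu ⟨j, hj⟩).re + (2 * ((j : ℝ) + 1) - m - 1) / 2) / 2 := by
      have : (-(mu ⟨j, hj⟩) + (2 * ((j : ℕ) + 1 : ℂ) - m - 1) / 2) / 2 =
          (-(mu ⟨j, hj⟩)) / 2 + ((((2 * ((j : ℝ) + 1) - m - 1) / 2) / 2 : ℝ) : ℂ) := by
        push_cast
        ring
      rw [this, Complex.add_re, Complex.ofReal_re, Complex.div_ofNat_re, Complex.neg_re]
      ring
    rw [h1]
    have h2 := abs_le.1 (h ⟨j, hj⟩)
    have hj' : (j : ℝ) + 1 ≤ m := by exact_mod_cast hj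
    have hj0 : (0 : ℝ) ≤ j := Nat.cast_nonneg j
    rw [abs_le]
    constructor <;> linarith [h2.1, h2.2]
  · simp only [Complex.zero_re, abs_zero]
    positivity

/-- the quotients of the power functions -/
noncomputable def QQ {m : ℕ} (mu : Fin m → ℂ) (w w' : Mat m) (z : V m) : ℂ :=
  (pw mu (mt z * w) / pw mu w) * (starRingEnd ℂ) (pw mu (mt z * w') / pw mu w')

lemma QQ_eq {m : ℕ} (hm : 1 ≤ m) (mu : Fin m → ℂ) {w w' z0 : Mat m} (hw : w.det ≠ 0)
    (hw' : w'.det ≠ 0) (a b : Fin m) (s : ℝ) (hz : (zl z0 a b s).det ≠ 0) (z : V m)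
    (hzz : mt z = zl z0 a b s) :
    QQ mu w w' z = cexp (ph (Ep w) (Ep w') (fun j => (ex mu j - ex mu (j + 1)).re) (bb mu) z0 a b
      (s : ℂ)) := by
  unfold QQ
  rw [hzz, pw_div mu hw hz, pw_div mu hw' hz, ← Complex.exp_conj, ← Complex.exp_add]
  congr 1
  unfold ph
  rw [map_sum, ← Finset.sum_add_distrib]
  refine Finset.sum_congr rfl fun j hj => ?_
  have hjm : j + 1 ≤ m := Finset.mem_range.1 hj
  have h1 : ∀ {v : Mat m}, v.det ≠ 0 → log (us (Ep v (j + 1)) z0 a b (s : ℂ)) =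
      ((Real.log (Dp v ((zl z0 a b s).transpose * zl z0 a b s) (j + 1)) : ℝ) : ℂ) := by
    intro v hv
    rw [us_real (Ep_idem hv hjm), Complex.ofReal_log (Dp_pos hv hz hjm).le]
    rfl
  rw [h1 hw, h1 hw']
  obtain ⟨L, hL⟩ : ∃ L, L = Real.log (Dp w ((zl z0 a b s).transpose * zl z0 a b s) (j + 1)) :=
    ⟨_, rfl⟩
  obtain ⟨L', hL'⟩ : ∃ L, L = Real.log (Dp w' ((zl z0 a b s).transpose * zl z0 a b s) (j + 1)) :=
    ⟨_, rfl⟩
  rw [← hL, ← hL', map_mul, Complex.conj_ofReal]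
  beta_reduce
  obtain ⟨c, hc⟩ : ∃ c, c = ex mu j - ex mu (j + 1) := ⟨_, rfl⟩
  have e1 : bb mu j * (L - L') = c.im * (L - L') := by
    by_cases h : j + 1 < m
    · unfold bb
      rw [if_pos h, hc]
    · have h2 : j + 1 = m := by omega
      have h3 : L = L' := by
        rw [hL, hL', h2, Dp_full hw, Dp_full hw']
      rw [h3]
      ring
  have e2 : (((bb mu j * (L - L') : ℝ)) : ℂ) = ((c.im * (L - L') : ℝ) : ℂ) := by rw [e1]
  push_cast at e2
  rw [← hc]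
  rw [e2]
  conv_lhs => rw [← Complex.re_add_im c]
  rw [map_add, map_mul, Complex.conj_ofReal, Complex.conj_ofReal, Complex.conj_I]
  ring

/-- The oscillating integral. -/
theorem jkg (m : ℕ) (hm : 1 ≤ m) : ∃ r : ℝ, 0 < r ∧ r ≤ 1 / (4 * m) ∧
    ∀ (A : ℕ) (M : ℝ), ∃ C : ℝ, 0 < C ∧
    ∀ mu : Fin m → ℂ, (∀ j, |(mu j).re| ≤ M) → Monotone (fun j => (mu j).im) →
    ∀ w w' : Mat m, w.det ≠ 0 → w'.det ≠ 0 →
    ‖∫ z : V m, (ct m A r z : ℂ) * ((pw mu (mt z * w) / pw mu w) *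
      (starRingEnd ℂ) (pw mu (mt z * w') / pw mu w'))‖ ≤ C * ((1 + Gg mu w w') ^ A)⁻¹ := by
  obtain ⟨r, hr, hr4, hnear, hl⟩ := line m hm
  have hm0 : (1 : ℝ) ≤ m := by exact_mod_cast hm
  refine ⟨r, hr, hr4, fun A M => ?_⟩
  obtain ⟨C1, hC1, hl1⟩ := hl A (|M| + m + 1)
  refine ⟨(r ^ 2)⁻¹ ^ A * C1 * (2 * r) ^ (m * m - 1) * m ^ A, by positivity, ?_⟩
  intro mu hmu hmono w w' hw hw'
  have hM0 : 0 ≤ |M| := abs_nonneg M
  have hmu' : ∀ j, |(mu j).re| ≤ |M| := fun j => (hmu j).trans (le_abs_self M)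
  -- the gradient
  obtain ⟨D, hD⟩ : ∃ D : Mat m, D = ∑ j ∈ Finset.range m, bb mu j • (Ep w (j + 1) - Ep w' (j + 1)) :=
    ⟨_, rfl⟩
  obtain ⟨N, hN⟩ : ∃ N, N = Real.sqrt (fsq D) := ⟨_, rfl⟩
  have hN0 : 0 ≤ N := by rw [hN]; exact Real.sqrt_nonneg _
  have hmin : ∀ j ∈ Finset.range m, min (j + 1) m = j + 1 := fun j hj =>
    min_eq_left (Finset.mem_range.1 hj)
  have hgrd : ∀ j < m, |bb mu j| * Real.sqrt (fsq (Ep w (j + 1) - Ep w' (j + 1))) ≤ N := by
    intro j hj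
    rw [abs_of_nonneg (bb_nonneg hmono j), hN]
    refine Real.le_sqrt_of_sq_le ?_
    rw [mul_pow, Real.sq_sqrt (fsq_nonneg _)]
    have h1 := grd_pos (flg_Ep hw) (flg_Ep hw') (Finset.range m) (bb mu)
      (fun i _ => bb_nonneg hmono i)
    have h2 : ∑ i ∈ Finset.range m, bb mu i • (Ep w (min (i + 1) m) - Ep w' (min (i + 1) m)) =
        D := by
      rw [hD]
      exact Finset.sum_congr rfl fun i hi => by rw [hmin i hi]
    rw [h2] at h1
    refine le_trans ?_ h1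
    have h3 := Finset.single_le_sum (f := fun i => bb mu i ^ 2 *
      fsq (Ep w (min (i + 1) m) - Ep w' (min (i + 1) m)))
      (fun i _ => mul_nonneg (sq_nonneg _) (fsq_nonneg _)) (Finset.mem_range.2 hj)
    rwa [hmin j (Finset.mem_range.2 hj)] at h3
  obtain ⟨a, b, hab⟩ := exists_ab hm D
  rw [← hN] at hab
  have hprj : ∀ j < m, Pool.Agent.H27.L1.H40.GHK.Prj (Ep w (j + 1)) ∧
      Pool.Agent.H27.L1.H40.GHK.Prj (Ep w' (j + 1)) := fun j hj =>
    ⟨⟨Ep_symm _ _, Ep_idem hw hj⟩, ⟨Ep_symm _ _, Ep_idem hw' hj⟩⟩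
  have hal : ∀ j < m, |(ex mu j - ex mu (j + 1)).re| ≤ |M| + m + 1 := by
    intro j _
    rw [Complex.sub_re]
    have h1 := ex_re hmu' hM0 j
    have h2 := ex_re hmu' hM0 (j + 1)
    refine (abs_sub _ _).trans ?_
    linarith
  have hline := hl1 (Ep w) (Ep w') (fun j => (ex mu j - ex mu (j + 1)).re) (bb mu) hprj hal N a b
    hN0 hgrd (by rw [← hD]; exact hab)
  -- the integral over the ball
  obtain ⟨o, ho⟩ : ∃ o : V m, o = fun i j => (1 : Mat m) i j := ⟨_, rfl⟩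
  have hmto : ∀ Y : V m, mt (o + Y) = 1 + mt Y := fun Y => by
    rw [ho]
    rfl
  have hsub : ∀ Y : V m, mt (o + Y) - 1 = mt Y := fun Y => by
    rw [hmto, add_sub_cancel_left]
  have hmeas : MeasurableSet {Y : Fin m → Fin m → ℝ | fsq Y < r ^ 2} := by
    refine measurableSet_lt ?_ measurable_const
    unfold fsq
    fun_prop
  obtain ⟨f, hf⟩ : ∃ f : (Fin m → Fin m → ℝ) → ℂ, f = fun Y : V m =>
      (((1 - fsq Y / r ^ 2) ^ A : ℝ) : ℂ) * QQ mu w w' (o + Y) := ⟨_, rfl⟩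
  have hint : ∫ z : V m, (ct m A r z : ℂ) * ((pw mu (mt z * w) / pw mu w) *
      (starRingEnd ℂ) (pw mu (mt z * w') / pw mu w')) =
      ∫ Y in {Y : Fin m → Fin m → ℝ | fsq Y < r ^ 2}, f Y := by
    rw [← integral_indicator hmeas]
    rw [← integral_add_left_eq_self (μ := (volume : Measure (V m)))
      (fun z : V m => (ct m A r z : ℂ) * ((pw mu (mt z * w) / pw mu w) *
      (starRingEnd ℂ) (pw mu (mt z * w') / pw mu w'))) o]
    refine integral_congr_ae (Filter.Eventually.of_forall fun Y => ?_)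
    show (ct m A r (o + Y) : ℂ) * QQ mu w w' (o + Y) = _
    unfold ct
    rw [hsub]
    by_cases hY : fsq Y < r ^ 2
    · rw [Set.indicator_of_mem (show Y ∈ {Y : Fin m → Fin m → ℝ | fsq Y < r ^ 2} from hY), hf]
      have : fsq (mt Y) < r ^ 2 := hY
      rw [if_pos this]
      rfl
    · rw [Set.indicator_of_notMem (show Y ∉ {Y : Fin m → Fin m → ℝ | fsq Y < r ^ 2} from hY)]
      have : ¬ fsq (mt Y) < r ^ 2 := hY
      rw [if_neg this]
      simp
  rw [hint]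
  have hfub := fub hr a b f ((r ^ 2)⁻¹ ^ A * (C1 * ((1 + N) ^ A)⁻¹)) (by positivity) ?_
  · refine hfub.trans ?_
    have hG0 : 0 ≤ Gg mu w w' ∧ Gg mu w w' ≤ m * N := by
      unfold Gg
      have h1 : ∀ j ∈ Finset.range m, 0 ≤ Pool.Agent.H27.L1.H68.GHK.bt mu j * sz (EP j w - EP j w') ∧
          Pool.Agent.H27.L1.H68.GHK.bt mu j * sz (EP j w - EP j w') ≤ N := by
        intro j hj
        rcases j with _ | i
        · have : Pool.Agent.H27.L1.H68.GHK.bt mu 0 = 0 := by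
            unfold Pool.Agent.H27.L1.H68.GHK.bt
            rw [dif_neg (by omega)]
          rw [this, zero_mul]
          exact ⟨le_rfl, hN0⟩
        · have hi : i + 1 < m := Finset.mem_range.1 hj
          have h2 : Pool.Agent.H27.L1.H68.GHK.bt mu (i + 1) = bb mu i := by
            rw [bb_eq mu hi]
            unfold Pool.Agent.H27.L1.H68.GHK.bt
            rw [dif_pos ⟨by omega, hi⟩]
            rfl
          have h3 : ∀ v : Mat m, EP (i + 1) v = Ep v (i + 1) := by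
            intro v
            rw [Ep_le v hi.le]
            unfold EP
            rw [dif_pos hi.le]
            rfl
          rw [h2, h3, h3]
          have h4 : 0 ≤ sz (Ep w (i + 1) - Ep w' (i + 1)) := by
            unfold sz
            exact norm_nonneg _
          refine ⟨mul_nonneg (bb_nonneg hmono i) h4, ?_⟩
          refine le_trans ?_ (hgrd i (by omega))
          rw [abs_of_nonneg (bb_nonneg hmono i)]
          exact mul_le_mul_of_nonneg_left (sz_le_fsq _) (bb_nonneg hmono i)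
      refine ⟨Finset.sum_nonneg fun j hj => (h1 j hj).1, ?_⟩
      refine (Finset.sum_le_sum fun j hj => (h1 j hj).2).trans (le_of_eq ?_)
      rw [Finset.sum_const, Finset.card_range, nsmul_eq_mul]
    have h5 : ((1 + N) ^ A)⁻¹ ≤ m ^ A * ((1 + Gg mu w w') ^ A)⁻¹ := by
      have h6 : (1 + Gg mu w w') / m ≤ 1 + N := by
        rw [div_le_iff₀ (by linarith)]
        nlinarith [hG0.2]
      have hp : 0 < 1 + Gg mu w w' := by linarith [hG0.1]
      have h7 : ((1 + Gg mu w w') / m) ^ A ≤ (1 + N) ^ A := pow_le_pow_left₀ (by positivity) h6 A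
      calc ((1 + N) ^ A)⁻¹ ≤ (((1 + Gg mu w w') / m) ^ A)⁻¹ := by
            apply inv_anti₀ (by positivity) h7
        _ = m ^ A * ((1 + Gg mu w w') ^ A)⁻¹ := by
            rw [div_pow, inv_div, div_eq_mul_inv]
    calc (r ^ 2)⁻¹ ^ A * (C1 * ((1 + N) ^ A)⁻¹) * (2 * r) ^ (m * m - 1)
        ≤ (r ^ 2)⁻¹ ^ A * (C1 * (m ^ A * ((1 + Gg mu w w') ^ A)⁻¹)) * (2 * r) ^ (m * m - 1) := by
          gcongr
      _ = _ := by ring
  · intro Y0 hY0 hY0r
    obtain ⟨z0, hz0⟩ : ∃ z0 : Mat m, z0 = 1 + mt Y0 := ⟨_, rfl⟩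
    have hz01 : z0 - 1 = mt Y0 := by rw [hz0, add_sub_cancel_left]
    have hfz : fsq (z0 - 1) = fsq Y0 := by rw [hz01]; rfl
    have h1 := hline z0 (by rw [hfz]; exact hY0r)
    rw [hfz] at h1
    obtain ⟨sg, hsg⟩ : ∃ sg, sg = Real.sqrt (r ^ 2 - fsq Y0) := ⟨_, rfl⟩
    rw [← hsg] at h1 ⊢
    have hsg0 : 0 ≤ sg := by rw [hsg]; exact Real.sqrt_nonneg _
    have hsg2 : sg ^ 2 = r ^ 2 - fsq Y0 := by
      rw [hsg, Real.sq_sqrt (by linarith)]
    have hsgr : sg ≤ r := by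
      rw [hsg, Real.sqrt_le_left hr.le]
      have := fsq_nonneg (m := Fin m) (n := Fin m) Y0
      linarith
    have h2 : ∫ s in (-sg)..sg, f (Y0 + s • Pool.Agent.H27.L1.H40.GHK.eab a b) =
        ∫ s in (-sg)..sg, (((r ^ 2)⁻¹ ^ A : ℝ) : ℂ) * (((sg : ℂ) ^ 2 - (s : ℂ) ^ 2) ^ A *
          cexp (ph (Ep w) (Ep w') (fun j => (ex mu j - ex mu (j + 1)).re) (bb mu) z0 a b (s : ℂ))) := by
      refine intervalIntegral.integral_congr fun s hs => ?_
      rw [Set.uIcc_of_le (by linarith)] at hs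
      have hsabs : |s| ≤ sg := abs_le.2 hs
      have hs2 : ‖(s : ℂ)‖ ≤ 2 * r := by
        rw [Complex.norm_real, Real.norm_eq_abs]
        linarith
      have hzl : mt (o + (Y0 + s • Pool.Agent.H27.L1.H40.GHK.eab a b)) = zl z0 a b s := by
        rw [hmto, hz0]
        unfold zl
        rw [add_assoc]
        rfl
      have hdet : (zl z0 a b s).det ≠ 0 := by
        have h3 := hnear z0 (by rw [hfz]; exact hY0r.le) a b (s : ℂ) hs2 1
          ⟨Matrix.transpose_one, Matrix.one_mul 1⟩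
        rw [us_real (Matrix.one_mul 1)] at h3
        have h4 := pos_of_near h3
        rw [Matrix.one_mul, Matrix.mul_one, add_sub_cancel_right, Matrix.det_mul,
          Matrix.det_transpose] at h4
        intro h5
        rw [h5] at h4
        simp at h4
      simp only [hf]
      rw [QQ_eq hm mu hw hw' a b s hdet _ hzl, ← mul_assoc]
      congr 1
      have h6 : (1 - fsq (Y0 + s • Pool.Agent.H27.L1.H40.GHK.eab a b) / r ^ 2) =
          (r ^ 2)⁻¹ * (sg ^ 2 - s ^ 2) := by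
        have h7 := fsq_line Y0 a b hY0 s
        rw [h7, hsg2]
        field_simp
        ring
      rw [h6, mul_pow]
      push_cast
      ring
    rw [h2, intervalIntegral.integral_const_mul, norm_mul]
    have h8 : ‖(((r ^ 2)⁻¹ ^ A : ℝ) : ℂ)‖ = (r ^ 2)⁻¹ ^ A := by
      rw [Complex.norm_real, Real.norm_of_nonneg (by positivity)]
    rw [h8]
    exact mul_le_mul_of_nonneg_left h1 (by positivity)

end Pool.Agent.H27.L1.H87.GHK.JK
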