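import Pool.Agent.H27.L1.H16.GHK.PH3
import Pool.Agent.H27.L1.H40.GHK.FUB
import Pool.Agent.H27.L1.H87.GHK.LIN

/-!
# The oscillating integral along one coordinate line
-/

set_option autoImplicit false

namespace Pool.Agent.H27.L1.H87.GHK.JK

open MeasureTheory Matrix Complex Metric
open Pool.Agent.H27.L1.H40.GHK (Prj fsq fsq_nonneg)
open Pool.Agent.H27.L1.H16.GHK (us cM phs near_slit Zs Ws cM_sub cM_mul cM_one cM_tr)

lemma log_bd {u : ℂ} (h : ‖u - 1‖ ≤ 1 / 2) : ‖Complex.log u‖ ≤ 1 := by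
  have h1 := Complex.norm_log_one_add_half_le_self h
  rw [add_sub_cancel] at h1
  linarith

/-- the real matrix on the line -/
noncomputable def zl {m : ℕ} (z0 : Matrix (Fin m) (Fin m) ℝ) (a b : Fin m) (s : ℝ) :
    Matrix (Fin m) (Fin m) ℝ := z0 + s • Pool.Agent.H27.L1.H16.GHK.eab a b

lemma Zs_real {m : ℕ} (z0 : Matrix (Fin m) (Fin m) ℝ) (a b : Fin m) (s : ℝ) :
    Zs z0 a b (s : ℂ) = cM (zl z0 a b s) := by
  ext i j
  simp [Zs, cM, zl]

lemma cM_det {m : ℕ} (A : Matrix (Fin m) (Fin m) ℝ) : (cM A).det = ((A.det : ℝ) : ℂ) := by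
  have h := (RingHom.map_det (Complex.ofRealHom) A)
  rw [Complex.ofRealHom_eq_coe] at h
  rw [h]
  rfl

lemma cM_add {m : ℕ} (A B : Matrix (Fin m) (Fin m) ℝ) : cM (A + B) = cM A + cM B := by
  ext i j
  simp [cM]

lemma us_real {m : ℕ} {E : Matrix (Fin m) (Fin m) ℝ} (hE : E * E = E)
    (z0 : Matrix (Fin m) (Fin m) ℝ) (a b : Fin m) (s : ℝ) :
    us E z0 a b (s : ℂ) =
      (((E * ((zl z0 a b s)ᵀ * zl z0 a b s) * E + 1 - E).det : ℝ) : ℂ) := by
  unfold us Ws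
  rw [Zs_real, ← cM_tr, ← cM_mul, ← cM_one, ← cM_sub, ← cM_mul, ← cM_mul, ← cM_add, cM_det]
  congr 2
  rw [Matrix.mul_sub, Matrix.sub_mul, Matrix.mul_one, hE]
  abel

lemma pos_of_near {x : ℝ} (h : ‖((x : ℝ) : ℂ) - 1‖ ≤ 1 / 2) : 0 < x := by
  have h1 : ‖((x : ℝ) : ℂ) - 1‖ = |x - 1| := by
    rw [← Complex.ofReal_one, ← Complex.ofReal_sub, Complex.norm_real, Real.norm_eq_abs]
  rw [h1, abs_le] at h
  linarith [h.1]

/-- the exponent -/
noncomputable def ph {m : ℕ} (E E' : ℕ → Matrix (Fin m) (Fin m) ℝ) (al be : ℕ → ℝ)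
    (z0 : Matrix (Fin m) (Fin m) ℝ) (a b : Fin m) (s : ℂ) : ℂ :=
  ∑ j ∈ Finset.range m, ((al j : ℂ) * (log (us (E (j + 1)) z0 a b s) +
    log (us (E' (j + 1)) z0 a b s)) +
    I * ((be j : ℂ) * (log (us (E (j + 1)) z0 a b s) - log (us (E' (j + 1)) z0 a b s))))

theorem line (m : ℕ) (hm : 1 ≤ m) : ∃ r : ℝ, 0 < r ∧ r ≤ 1 / (4 * m) ∧
    (∀ z0 : Matrix (Fin m) (Fin m) ℝ, fsq (z0 - 1) ≤ r ^ 2 → ∀ (a b : Fin m) (s : ℂ), ‖s‖ ≤ 2 * r →
      ∀ E, Prj E → ‖us E z0 a b s - 1‖ ≤ 1 / 2) ∧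
    ∀ (A : ℕ) (B : ℝ), ∃ C : ℝ, 0 < C ∧
    ∀ (E E' : ℕ → Matrix (Fin m) (Fin m) ℝ) (al be : ℕ → ℝ),
    (∀ j < m, Prj (E (j + 1)) ∧ Prj (E' (j + 1))) → (∀ j < m, |al j| ≤ B) →
    ∀ (N : ℝ) (a b : Fin m), 0 ≤ N →
    (∀ j < m, |be j| * Real.sqrt (fsq (E (j + 1) - E' (j + 1))) ≤ N) →
    N ≤ m * |(∑ j ∈ Finset.range m, be j • (E (j + 1) - E' (j + 1))) a b| →
    ∀ z0 : Matrix (Fin m) (Fin m) ℝ, fsq (z0 - 1) < r ^ 2 →
      ‖∫ s in (-Real.sqrt (r ^ 2 - fsq (z0 - 1)))..(Real.sqrt (r ^ 2 - fsq (z0 - 1))),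
        (((Real.sqrt (r ^ 2 - fsq (z0 - 1)) : ℝ) : ℂ) ^ 2 - (s : ℂ) ^ 2) ^ A *
        cexp (ph E E' al be z0 a b s)‖ ≤ C * ((1 + N) ^ A)⁻¹ := by
  obtain ⟨r0, C0, hr0, hC0, hph⟩ := phs m
  have hm0 : (1 : ℝ) ≤ m := by exact_mod_cast hm
  have hmp : (0 : ℝ) < m := by linarith
  obtain ⟨r, hr⟩ : ∃ r : ℝ, r = min r0 (min (1 / (4 * m)) (1 / (4 * C0 * m * m))) := ⟨_, rfl⟩
  have hrpos : 0 < r := by
    rw [hr]
    refine lt_min hr0 (lt_min ?_ ?_) <;> positivity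
  have hrr0 : r ≤ r0 := by rw [hr]; exact min_le_left _ _
  have hr4 : r ≤ 1 / (4 * m) := by
    rw [hr]; exact (min_le_right _ _).trans (min_le_left _ _)
  have hrC : r ≤ 1 / (4 * C0 * m * m) := by
    rw [hr]; exact (min_le_right _ _).trans (min_le_right _ _)
  have hr1 : r ≤ 1 := hr4.trans (by rw [div_le_one (by positivity)]; linarith)
  refine ⟨r, hrpos, hr4, fun z0 hz0 a b s hs E hE =>
    ((hph r hrpos hrr0 z0 hz0 a b s hs).1 E hE).1, fun A B => ?_⟩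
  obtain ⟨C1, hC1, hlin⟩ := lin A
  refine ⟨C1 * Real.exp (2 * m * B) * m ^ A, by positivity, ?_⟩
  intro E E' al be hEE hal N a b hN hbe hND z0 hz0
  obtain ⟨sg, hsg⟩ : ∃ sg, sg = Real.sqrt (r ^ 2 - fsq (z0 - 1)) := ⟨_, rfl⟩
  rw [← hsg]
  have hsgp : 0 < sg := by rw [hsg]; exact Real.sqrt_pos.2 (by linarith)
  have hsgr : sg ≤ r := by
    rw [hsg, Real.sqrt_le_left hrpos.le]
    linarith [fsq_nonneg (z0 - 1)]
  obtain ⟨kap, hkap⟩ : ∃ kap : ℝ, kap = 2 * (∑ j ∈ Finset.range m,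
    be j • (E (j + 1) - E' (j + 1))) a b := ⟨_, rfl⟩
  have hkN : 2 * N / m ≤ |kap| := by
    rw [hkap, abs_mul, abs_two, div_le_iff₀ hmp]
    linarith
  set Bf : ℂ → ℂ := fun s => cexp (∑ j ∈ Finset.range m, (al j : ℂ) *
    (log (us (E (j + 1)) z0 a b s) + log (us (E' (j + 1)) z0 a b s))) with hBf
  set Ps : ℂ → ℂ := fun s => ∑ j ∈ Finset.range m, (be j : ℂ) *
    (log (us (E (j + 1)) z0 a b s) - log (us (E' (j + 1)) z0 a b s)) with hPs
  have hb : ∀ s ∈ ball (0 : ℂ) (2 * r), ‖s‖ ≤ 2 * r := fun s hs => by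
    rw [mem_ball, dist_zero_right] at hs
    exact hs.le
  have hus : ∀ s ∈ ball (0 : ℂ) (2 * r), ∀ F, Prj F →
      ‖us F z0 a b s - 1‖ ≤ 1 / 2 ∧ DifferentiableAt ℂ (us F z0 a b) s := fun s hs =>
    (hph r hrpos hrr0 z0 hz0.le a b s (hb s hs)).1
  have hlog : ∀ s ∈ ball (0 : ℂ) (2 * r), ∀ F, Prj F →
      DifferentiableAt ℂ (fun s => log (us F z0 a b s)) s := fun s hs F hF =>
    (hus s hs F hF).2.clog (near_slit (hus s hs F hF).1)
  have hBd : DifferentiableOn ℂ Bf (ball 0 (2 * r)) := by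
    intro s hs
    refine DifferentiableAt.differentiableWithinAt ?_
    refine DifferentiableAt.cexp ?_
    refine DifferentiableAt.fun_sum fun j hj => ?_
    have hj' := hEE j (Finset.mem_range.1 hj)
    exact ((hlog s hs _ hj'.1).add (hlog s hs _ hj'.2)).const_mul _
  have hPd : DifferentiableOn ℂ Ps (ball 0 (2 * r)) := by
    intro s hs
    refine DifferentiableAt.differentiableWithinAt ?_
    refine DifferentiableAt.fun_sum fun j hj => ?_
    have hj' := hEE j (Finset.mem_range.1 hj)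
    exact ((hlog s hs _ hj'.1).sub (hlog s hs _ hj'.2)).const_mul _
  have hBn : ∀ s ∈ ball (0 : ℂ) (2 * r), ‖Bf s‖ ≤ Real.exp (2 * m * B) := by
    intro s hs
    rw [hBf]
    simp only
    rw [Complex.norm_exp]
    refine Real.exp_le_exp.2 ((Complex.re_le_norm _).trans ((norm_sum_le _ _).trans ?_))
    have h1 : ∀ j ∈ Finset.range m, ‖(al j : ℂ) * (log (us (E (j + 1)) z0 a b s) +
        log (us (E' (j + 1)) z0 a b s))‖ ≤ 2 * B := by
      intro j hj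
      have hj' := hEE j (Finset.mem_range.1 hj)
      have h2 := log_bd (hus s hs _ hj'.1).1
      have h3 := log_bd (hus s hs _ hj'.2).1
      have h4 := hal j (Finset.mem_range.1 hj)
      rw [norm_mul, Complex.norm_real, Real.norm_eq_abs, mul_comm 2 B]
      exact mul_le_mul h4 ((norm_add_le _ _).trans (by linarith)) (norm_nonneg _)
        ((abs_nonneg _).trans h4)
    refine (Finset.sum_le_sum h1).trans (le_of_eq ?_)
    rw [Finset.sum_const, Finset.card_range, nsmul_eq_mul]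
    ring
  have hreal : ∀ x : ℝ, |x| < 2 * r → (Ps x).im = 0 := by
    intro x hx
    have hxb : (x : ℂ) ∈ ball (0 : ℂ) (2 * r) := by
      rw [mem_ball, dist_zero_right, Complex.norm_real, Real.norm_eq_abs]
      exact hx
    have h1 : ∀ F, Prj F → ∃ l : ℝ, log (us F z0 a b (x : ℂ)) = (l : ℂ) := by
      intro F hF
      have h2 := (hus _ hxb F hF).1
      rw [us_real hF.2] at h2 ⊢
      exact ⟨_, (Complex.ofReal_log (pos_of_near h2).le).symm⟩
    rw [hPs]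
    simp only
    rw [Complex.im_sum]
    refine Finset.sum_eq_zero fun j hj => ?_
    have hj' := hEE j (Finset.mem_range.1 hj)
    obtain ⟨l, hl⟩ := h1 _ hj'.1
    obtain ⟨l', hl'⟩ := h1 _ hj'.2
    rw [hl, hl', ← Complex.ofReal_sub, ← Complex.ofReal_mul, Complex.ofReal_im]
  have hder : ∀ s ∈ ball (0 : ℂ) (2 * r), ‖deriv Ps s - kap‖ ≤ |kap| / 4 := by
    intro s hs
    have h1 : ∀ j : ℕ, ∃ d : ℂ, j < m →
        HasDerivAt (fun t => log (us (E (j + 1)) z0 a b t) - log (us (E' (j + 1)) z0 a b t)) d s ∧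
        ‖d - 2 * (((E (j + 1) - E' (j + 1)) a b : ℝ) : ℂ)‖ ≤
          C0 * r * Real.sqrt (fsq (E (j + 1) - E' (j + 1))) := by
      intro j
      by_cases hj : j < m
      · have hj' := hEE j hj
        obtain ⟨d, hd⟩ := (hph r hrpos hrr0 z0 hz0.le a b s (hb s hs)).2 _ _ hj'.1 hj'.2
        exact ⟨d, fun _ => hd⟩
      · exact ⟨0, fun h => absurd h hj⟩
    choose d hd using h1
    have h2 : HasDerivAt Ps (∑ j ∈ Finset.range m, (be j : ℂ) * d j) s := by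
      rw [hPs]
      exact HasDerivAt.fun_sum fun j hj => (hd j (Finset.mem_range.1 hj)).1.const_mul _
    rw [h2.deriv]
    have h3 : (kap : ℂ) = ∑ j ∈ Finset.range m, (be j : ℂ) *
        (2 * (((E (j + 1) - E' (j + 1)) a b : ℝ) : ℂ)) := by
      rw [hkap, Matrix.sum_apply]
      push_cast
      rw [Finset.mul_sum]
      refine Finset.sum_congr rfl fun j _ => ?_
      simp only [Matrix.smul_apply, smul_eq_mul, Matrix.sub_apply]
      push_cast
      ring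
    rw [h3, ← Finset.sum_sub_distrib]
    refine (norm_sum_le _ _).trans ?_
    have h4 : ∀ j ∈ Finset.range m, ‖(be j : ℂ) * d j - (be j : ℂ) *
        (2 * (((E (j + 1) - E' (j + 1)) a b : ℝ) : ℂ))‖ ≤ C0 * r * N := by
      intro j hj
      have h5 := (hd j (Finset.mem_range.1 hj)).2
      have h6 := hbe j (Finset.mem_range.1 hj)
      rw [← mul_sub, norm_mul, Complex.norm_real, Real.norm_eq_abs]
      calc |be j| * ‖d j - 2 * (((E (j + 1) - E' (j + 1)) a b : ℝ) : ℂ)‖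
          ≤ |be j| * (C0 * r * Real.sqrt (fsq (E (j + 1) - E' (j + 1)))) :=
            mul_le_mul_of_nonneg_left h5 (abs_nonneg _)
        _ = C0 * r * (|be j| * Real.sqrt (fsq (E (j + 1) - E' (j + 1)))) := by ring
        _ ≤ C0 * r * N := mul_le_mul_of_nonneg_left h6 (by positivity)
    refine (Finset.sum_le_sum h4).trans ?_
    rw [Finset.sum_const, Finset.card_range, nsmul_eq_mul]
    have h7 : m * (C0 * r * N) ≤ N / (2 * m) := by
      rw [le_div_iff₀ (by positivity)]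
      have h8 : r * (4 * C0 * m * m) ≤ 1 := by
        rw [le_div_iff₀ (by positivity)] at hrC
        exact hrC
      nlinarith
    refine h7.trans ?_
    have h9 : N / (2 * m) = (2 * N / m) / 4 := by
      field_simp
      ring
    rw [h9]
    linarith
  have h0 := hlin sg (2 * r) (Real.exp (2 * m * B)) kap Bf Ps hsgp (by linarith) (hsgr.trans hr1)
    hBd hPd hBn hreal hder
  have h1 : ∀ s : ℝ, ((sg : ℂ) ^ 2 - (s : ℂ) ^ 2) ^ A * cexp (ph E E' al be z0 a b s) =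
      ((sg : ℂ) ^ 2 - (s : ℂ) ^ 2) ^ A * Bf s * cexp (I * Ps s) := by
    intro s
    rw [mul_assoc]
    congr 1
    rw [hBf, hPs, ← Complex.exp_add]
    simp only
    congr 1
    unfold ph
    rw [Finset.sum_add_distrib, Finset.mul_sum]
  simp only [h1]
  refine h0.trans ?_
  have h2 : ((1 + |kap|) ^ A)⁻¹ ≤ m ^ A * ((1 + N) ^ A)⁻¹ := by
    have h3 : (1 + N) / m ≤ 1 + |kap| := by
      have h4 : (1 + N) / m ≤ 1 + 2 * N / m := by
        rw [div_le_iff₀ hmp, add_mul, div_mul_cancel₀ _ hmp.ne']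
        linarith
      linarith
    have h5 : ((1 + N) / m) ^ A ≤ (1 + |kap|) ^ A := pow_le_pow_left₀ (by positivity) h3 A
    calc ((1 + |kap|) ^ A)⁻¹ ≤ (((1 + N) / m) ^ A)⁻¹ := by
          apply inv_anti₀ (by positivity) h5
      _ = m ^ A * ((1 + N) ^ A)⁻¹ := by
          rw [div_pow, inv_div, div_eq_mul_inv]
  calc C1 * Real.exp (2 * m * B) * ((1 + |kap|) ^ A)⁻¹
      ≤ C1 * Real.exp (2 * m * B) * (m ^ A * ((1 + N) ^ A)⁻¹) := by gcongr
    _ = _ := by ring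

end Pool.Agent.H27.L1.H87.GHK.JK
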