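import Mathlib

/-!
# Non stationary phase in one variable, with uniform constants
-/

set_option autoImplicit false

open MeasureTheory Set Filter Topology Complex
open scoped ContDiff

namespace Pool.Agent.H27.L1.H87.GHK

/-- the interval where the conditions hold -/
def U : Set ℝ := Ioo (-2) 2

theorem isOpen_U : IsOpen U := isOpen_Ioo

/-- `f` is smooth on `U` with derivatives of order at most `n` bounded by `A` -/
structure Bn (n : ℕ) (A : ℝ) (f : ℝ → ℂ) : Prop where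
  sm : ContDiffOn ℝ ∞ f U
  bd : ∀ k ≤ n, ∀ s ∈ U, ‖iteratedDeriv k f s‖ ≤ A

theorem Bn.mono {n m : ℕ} {A B : ℝ} {f : ℝ → ℂ} (h : Bn n A f) (hm : m ≤ n) (hA : A ≤ B) :
    Bn m B f := ⟨h.sm, fun k hk s hs => (h.bd k (hk.trans hm) s hs).trans hA⟩

theorem Bn.at {n : ℕ} {A : ℝ} {f : ℝ → ℂ} (h : Bn n A f) {s : ℝ} (hs : s ∈ U) :
    ContDiffAt ℝ ∞ f s := h.sm.contDiffAt (isOpen_U.mem_nhds hs)

theorem Bn.dv {n : ℕ} {A : ℝ} {f : ℝ → ℂ} (h : Bn (n + 1) A f) : Bn n A (deriv f) := by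
  refine ⟨h.sm.deriv_of_isOpen isOpen_U (by simp), fun k hk s hs => ?_⟩
  rw [← iteratedDeriv_succ']
  exact h.bd (k + 1) (by omega) s hs

theorem Bn.nonneg {n : ℕ} {A : ℝ} {f : ℝ → ℂ} (h : Bn n A f) : 0 ≤ A :=
  (norm_nonneg _).trans (h.bd 0 (Nat.zero_le _) 0 (by unfold U; constructor <;> norm_num))

theorem Bn.succ {n : ℕ} {A : ℝ} {f g : ℝ → ℂ} (h : ContDiffOn ℝ ∞ f U)
    (h0 : ∀ s ∈ U, ‖f s‖ ≤ A) (hg : Bn n A g) (he : ∀ s ∈ U, deriv f s = g s) :
    Bn (n + 1) A f := by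
  refine ⟨h, fun k hk s hs => ?_⟩
  rcases k with _ | k
  · simpa using h0 s hs
  · rw [iteratedDeriv_succ']
    have : deriv f =ᶠ[𝓝 s] g := by
      filter_upwards [isOpen_U.mem_nhds hs] with x hx using he x hx
    rw [this.iteratedDeriv_eq]
    exact hg.bd k (by omega) s hs

theorem Bn.congr {n : ℕ} {A : ℝ} {f g : ℝ → ℂ} (h : Bn n A f) (he : ∀ s ∈ U, g s = f s) :
    Bn n A g := by
  refine ⟨h.sm.congr he, fun k hk s hs => ?_⟩
  have : g =ᶠ[𝓝 s] f := by
    filter_upwards [isOpen_U.mem_nhds hs] with x hx using he x hx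
  rw [this.iteratedDeriv_eq]
  exact h.bd k hk s hs

theorem Bn.add {n : ℕ} {A B : ℝ} {f g : ℝ → ℂ} (hf : Bn n A f) (hg : Bn n B g) :
    Bn n (A + B) (fun s => f s + g s) := by
  refine ⟨hf.sm.add hg.sm, fun k hk s hs => ?_⟩
  have h1 : ContDiffAt ℝ k f s := (hf.at hs).of_le (mod_cast le_top)
  have h2 : ContDiffAt ℝ k g s := (hg.at hs).of_le (mod_cast le_top)
  have := iteratedDeriv_add h1 h2
  have e : iteratedDeriv k (fun s => f s + g s) s = iteratedDeriv k f s + iteratedDeriv k g s :=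
    this
  rw [e]
  exact (norm_add_le _ _).trans (add_le_add (hf.bd k hk s hs) (hg.bd k hk s hs))

theorem Bn.neg {n : ℕ} {A : ℝ} {f : ℝ → ℂ} (hf : Bn n A f) : Bn n A (fun s => - f s) := by
  refine ⟨hf.sm.neg, fun k hk s hs => ?_⟩
  have e : iteratedDeriv k (fun s => - f s) s = - iteratedDeriv k f s := by
    simp
  rw [e, norm_neg]
  exact hf.bd k hk s hs

theorem Bn.mul : ∀ {n : ℕ} {A B : ℝ} {f g : ℝ → ℂ}, Bn n A f → Bn n B g →
    Bn n (2 ^ n * (A * B)) (fun s => f s * g s) := by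
  intro n
  induction n with
  | zero =>
    intro A B f g hf hg
    refine ⟨hf.sm.mul hg.sm, fun k hk s hs => ?_⟩
    obtain rfl : k = 0 := by omega
    have h1 := hf.bd 0 le_rfl s hs
    have h2 := hg.bd 0 le_rfl s hs
    simp only [iteratedDeriv_zero, pow_zero, one_mul, norm_mul] at *
    exact mul_le_mul h1 h2 (norm_nonneg _) hf.nonneg
  | succ n ih =>
    intro A B f g hf hg
    have hA := hf.nonneg
    have hB := hg.nonneg
    have h1 := (ih hf.dv (hg.mono (Nat.le_succ n) le_rfl)).add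
      (ih (hf.mono (Nat.le_succ n) le_rfl) hg.dv)
    refine Bn.succ (hf.sm.mul hg.sm) (fun s hs => ?_)
      (h1.mono le_rfl (by rw [pow_succ]; nlinarith [mul_nonneg hA hB])) fun s hs => ?_
    · have h2 := hf.bd 0 (Nat.zero_le _) s hs
      have h3 := hg.bd 0 (Nat.zero_le _) s hs
      simp only [iteratedDeriv_zero] at h2 h3
      rw [norm_mul]
      have h4 : ‖f s‖ * ‖g s‖ ≤ A * B := mul_le_mul h2 h3 (norm_nonneg _) hA
      have h5 : (1 : ℝ) ≤ 2 ^ (n + 1) := one_le_pow₀ (by norm_num)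
      nlinarith [mul_nonneg hA hB]
    · have h2 : DifferentiableAt ℝ f s := (hf.at hs).differentiableAt (by simp)
      have h3 : DifferentiableAt ℝ g s := (hg.at hs).differentiableAt (by simp)
      exact deriv_fun_mul h2 h3

theorem dvs {f g : ℝ → ℂ} (hf : ContDiffOn ℝ ∞ f U) (hg : ContDiffOn ℝ ∞ g U)
    (h : ∀ s ∈ U, g s ≠ 0) : ContDiffOn ℝ ∞ (fun s => f s / g s) U := by
  simp only [div_eq_mul_inv]
  exact hf.mul (hg.inv h)

theorem Bn.div : ∀ (n : ℕ) (A c : ℝ), 0 < c → ∃ A' : ℝ, ∀ f g : ℝ → ℂ, Bn n A f → Bn n A g →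
    (∀ s ∈ U, c ≤ ‖g s‖) → Bn n A' (fun s => f s / g s) := by
  intro n
  induction n with
  | zero =>
    intro A c hc
    refine ⟨A / c, fun f g hf hg h => ⟨dvs hf.sm hg.sm fun s hs h0 => ?_, fun k hk s hs => ?_⟩⟩
    · have := h s hs
      rw [h0, norm_zero] at this
      linarith
    · obtain rfl : k = 0 := by omega
      have h1 := hf.bd 0 le_rfl s hs
      simp only [iteratedDeriv_zero, norm_div] at *
      exact div_le_div₀ hf.nonneg h1 hc (h s hs)
  | succ n ih =>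
    intro A c hc
    obtain ⟨A1, h1⟩ := ih A c hc
    obtain ⟨A2, h2⟩ := ih (max A (A + 2 ^ n * (A1 * A))) c hc
    refine ⟨max A2 (A / c), fun f g hf hg h => ?_⟩
    have hf' := hf.mono (Nat.le_succ n) le_rfl
    have hg' := hg.mono (Nat.le_succ n) le_rfl
    have h3 := h1 f g hf' hg' h
    have h4 := (hf.dv.add (h3.mul hg.dv).neg).mono le_rfl
      (le_max_right A (A + 2 ^ n * (A1 * A)))
    have h5 := h2 _ g h4 (hg'.mono le_rfl (le_max_left _ _)) h
    have hne : ∀ s ∈ U, g s ≠ 0 := by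
      intro s hs h0
      have := h s hs
      rw [h0, norm_zero] at this
      linarith
    refine Bn.succ (dvs hf.sm hg.sm hne) (fun s hs => ?_) (h5.mono le_rfl (le_max_left _ _))
      fun s hs => ?_
    · have h6 := hf.bd 0 (Nat.zero_le _) s hs
      simp only [iteratedDeriv_zero] at h6
      rw [norm_div]
      exact (div_le_div₀ hf.nonneg h6 hc (h s hs)).trans (le_max_right _ _)
    · have h7 : DifferentiableAt ℝ f s := (hf.at hs).differentiableAt (by simp)
      have h8 : DifferentiableAt ℝ g s := (hg.at hs).differentiableAt (by simp)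
      rw [deriv_fun_div h7 h8 (hne s hs)]
      have := hne s hs
      field_simp
      ring

/-- `f` vanishes outside of `[-1, 1]` -/
def Zr (f : ℝ → ℂ) : Prop := ∀ s : ℝ, 1 < |s| → f s = 0

theorem Zr.ev {f : ℝ → ℂ} (h : Zr f) {s : ℝ} (hs : 1 < |s|) : f =ᶠ[𝓝 s] fun _ => 0 := by
  have : {x : ℝ | 1 < |x|} ∈ 𝓝 s := (isOpen_lt continuous_const continuous_abs).mem_nhds hs
  filter_upwards [this] with x hx using h x hx

theorem Zr.dv {f : ℝ → ℂ} (h : Zr f) : Zr (deriv f) := by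
  intro s hs
  rw [(h.ev hs).deriv_eq]
  simp

theorem Zr.cpt {f : ℝ → ℂ} (h : Zr f) : HasCompactSupport f := by
  refine HasCompactSupport.intro (isCompact_Icc (a := (-1 : ℝ)) (b := 1)) fun s hs => h s ?_
  by_contra hc
  rw [not_lt, abs_le] at hc
  exact hs hc

theorem out_or (s : ℝ) : s ∈ U ∨ 1 < |s| := by
  by_cases h : |s| < 2
  · left
    exact abs_lt.1 h
  · right
    linarith [not_lt.1 h]

theorem diff_all {n : ℕ} {A : ℝ} {f : ℝ → ℂ} (h : Bn n A f) (hz : Zr f) (s : ℝ) :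
    HasDerivAt f (deriv f s) s := by
  rcases out_or s with hs | hs
  · exact ((h.at hs).differentiableAt (by simp)).hasDerivAt
  · have h1 : DifferentiableAt ℝ f s := ((differentiableAt_const (0 : ℂ)).congr_of_eventuallyEq
      (hz.ev hs))
    exact h1.hasDerivAt

theorem cont_all {n : ℕ} {A : ℝ} {f : ℝ → ℂ} (h : Bn n A f) (hz : Zr f) : Continuous f :=
  continuous_iff_continuousAt.2 fun s => (diff_all h hz s).continuousAt

theorem main (c : ℝ) (hc : 0 < c) : ∀ (N : ℕ) (A : ℝ), ∃ C : ℝ, 0 ≤ C ∧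
    ∀ (h : ℝ → ℂ) (Ψ : ℝ → ℝ) (G : ℝ), 0 < G → Bn N A h → Zr h → ContDiff ℝ ∞ Ψ →
      Bn N A (fun s => ((deriv Ψ s / G : ℝ) : ℂ)) → (∀ s ∈ U, c ≤ ‖((deriv Ψ s / G : ℝ) : ℂ)‖) →
      ‖∫ s, h s * cexp (I * Ψ s)‖ ≤ C * (G⁻¹) ^ N := by
  intro N
  induction N with
  | zero =>
    intro A
    refine ⟨2 * |A|, by positivity, fun h Ψ G hG hB hZ hΨ hP hL => ?_⟩
    rw [pow_zero, mul_one]
    have h1 : ∫ s, h s * cexp (I * Ψ s) = ∫ s in Icc (-1 : ℝ) 1, h s * cexp (I * Ψ s) := by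
      symm
      refine setIntegral_eq_integral_of_forall_compl_eq_zero fun s hs => ?_
      rw [hZ s ?_, zero_mul]
      by_contra hcn
      rw [not_lt, abs_le] at hcn
      exact hs hcn
    rw [h1]
    have h2 : ‖∫ s in Icc (-1 : ℝ) 1, h s * cexp (I * Ψ s)‖ ≤ |A| * (volume (Icc (-1 : ℝ) 1)).toReal := by
      refine norm_setIntegral_le_of_norm_le_const (by simp) fun s hs => ?_
      rw [norm_mul, mul_comm I, norm_exp_ofReal_mul_I, mul_one]
      have := hB.bd 0 le_rfl s (by unfold U; constructor <;> linarith [hs.1, hs.2])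
      rw [iteratedDeriv_zero] at this
      exact this.trans (le_abs_self A)
    refine h2.trans (le_of_eq ?_)
    rw [Real.volume_Icc]
    norm_num
    ring
  | succ N ih =>
    intro A
    obtain ⟨A1, h1⟩ := Bn.div (N + 1) A c hc
    obtain ⟨C, hC, h2⟩ := ih (max A A1)
    refine ⟨C, hC, fun h Ψ G hG hB hZ hΨ hP hL => ?_⟩
    set g : ℝ → ℂ := fun s => ((deriv Ψ s / G : ℝ) : ℂ) with hg
    have hq := h1 h g hB hP hL
    have hZq : Zr (fun s => h s / g s) := fun s hs => by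
      show h s / g s = 0
      rw [hZ s hs, zero_div]
    have h3 := h2 (deriv fun s => h s / g s) Ψ G hG (hq.dv.mono le_rfl (le_max_right _ _))
      hZq.dv hΨ (hP.mono (Nat.le_succ N) (le_max_left _ _)) hL
    -- integration by parts
    have hΨd : ∀ s, HasDerivAt Ψ (deriv Ψ s) s := fun s =>
      (hΨ.differentiable (by simp)).differentiableAt.hasDerivAt
    have hed : ∀ s : ℝ, HasDerivAt (fun s : ℝ => cexp (I * Ψ s))
        (cexp (I * Ψ s) * (I * (deriv Ψ s : ℝ))) s := fun s =>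
      ((hΨd s).ofReal_comp.const_mul I).cexp
    have hF : ∀ s : ℝ, HasDerivAt (fun s : ℝ => h s / g s * cexp (I * Ψ s))
        (deriv (fun s => h s / g s) s * cexp (I * Ψ s) + I * G * (h s * cexp (I * Ψ s))) s := by
      intro s
      have h4 := (diff_all hq hZq s).mul (hed s)
      refine h4.congr_deriv ?_
      congr 1
      rcases out_or s with hs | hs
      · have hgne : g s ≠ 0 := by
          intro h0
          have := hL s hs
          rw [show ((deriv Ψ s / G : ℝ) : ℂ) = g s from rfl, h0, norm_zero] at this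
          linarith
        have e : ((deriv Ψ s : ℝ) : ℂ) = G * g s := by
          rw [hg]
          push_cast
          have : (G : ℂ) ≠ 0 := by exact_mod_cast hG.ne'
          field_simp
        rw [e]
        field_simp
      · rw [hZ s hs]
        simp
    have hce : Continuous fun s : ℝ => cexp (I * Ψ s) := by
      have := hΨ.continuous
      fun_prop
    have hi1 : Integrable fun s : ℝ => h s / g s * cexp (I * Ψ s) := by
      refine ((cont_all hq hZq).mul hce).integrable_of_hasCompactSupport ?_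
      exact hZq.cpt.mul_right
    have hi2 : Integrable fun s : ℝ => deriv (fun s => h s / g s) s * cexp (I * Ψ s) := by
      refine ((cont_all hq.dv hZq.dv).mul hce).integrable_of_hasCompactSupport ?_
      exact hZq.dv.cpt.mul_right
    have hi3 : Integrable fun s : ℝ => h s * cexp (I * Ψ s) := by
      refine ((cont_all hB hZ).mul hce).integrable_of_hasCompactSupport ?_
      exact hZ.cpt.mul_right
    have h5 := integral_eq_zero_of_hasDerivAt_of_integrable hF (hi2.add (hi3.const_mul (I * G)))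
      hi1
    rw [integral_add hi2 (hi3.const_mul _), integral_const_mul] at h5
    have h6 : ‖∫ s, h s * cexp (I * Ψ s)‖ = G⁻¹ *
        ‖∫ s, deriv (fun s => h s / g s) s * cexp (I * Ψ s)‖ := by
      have h7 : ∫ s, deriv (fun s => h s / g s) s * cexp (I * Ψ s) =
          - (I * G * ∫ s, h s * cexp (I * Ψ s)) := by
        linear_combination h5
      rw [h7, norm_neg, norm_mul, norm_mul, norm_I, one_mul, Complex.norm_real,
        Real.norm_of_nonneg hG.le, ← mul_assoc, inv_mul_cancel₀ hG.ne', one_mul]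
    rw [h6, pow_succ]
    calc G⁻¹ * ‖∫ s, deriv (fun s => h s / g s) s * cexp (I * Ψ s)‖ ≤ G⁻¹ * (C * G⁻¹ ^ N) :=
          mul_le_mul_of_nonneg_left h3 (inv_nonneg.2 hG.le)
      _ = C * (G⁻¹ ^ N * G⁻¹) := by ring

/-- Non stationary phase, phase derivative at least `c G`. -/
theorem nsp (N : ℕ) (A c : ℝ) (hc : 0 < c) : ∃ C : ℝ, 0 < C ∧
    ∀ (h : ℝ → ℂ) (Ψ : ℝ → ℝ) (G : ℝ), 0 < G → ContDiff ℝ ∞ h → ContDiff ℝ ∞ Ψ →
      (∀ s : ℝ, 1 < |s| → h s = 0) →
      (∀ k ≤ N, ∀ s : ℝ, |s| < 2 → ‖iteratedDeriv k h s‖ ≤ A) →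
      (∀ s : ℝ, |s| < 2 → c * G ≤ |deriv Ψ s|) →
      (∀ k ≤ N, ∀ s : ℝ, |s| < 2 → |iteratedDeriv (k + 1) Ψ s| ≤ A * G) →
      ‖∫ s : ℝ, h s * cexp (I * Ψ s)‖ ≤ C * (G⁻¹) ^ N := by
  obtain ⟨C, hC, hm⟩ := main c hc N A
  refine ⟨C + 1, by positivity, fun h Ψ G hG hh hΨ hz hb hl hu => ?_⟩
  have hG' : 0 < G⁻¹ := inv_pos.2 hG
  have hsm : ContDiff ℝ ∞ fun s => deriv Ψ s / G := by
    have : ContDiff ℝ ∞ (deriv Ψ) := by
      have h1 : ContDiff ℝ (∞ + 1) Ψ := by simpa using hΨ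
      exact (contDiff_succ_iff_deriv.1 h1).2.2
    exact this.div_const G
  have hP : Bn N A (fun s => ((deriv Ψ s / G : ℝ) : ℂ)) := by
    refine ⟨(Complex.ofRealCLM.contDiff.comp hsm).contDiffOn, fun k hk s hs => ?_⟩
    have hs' : |s| < 2 := abs_lt.2 hs
    have e1 : iteratedDeriv k (fun s => ((deriv Ψ s / G : ℝ) : ℂ)) s =
        ((iteratedDeriv k (fun s => deriv Ψ s / G) s : ℝ) : ℂ) := by
      have : ∀ (k : ℕ) (f : ℝ → ℝ), ContDiff ℝ ∞ f →
          iteratedDeriv k (fun s => ((f s : ℝ) : ℂ)) = fun s => ((iteratedDeriv k f s : ℝ) : ℂ) := by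
        intro k
        induction k with
        | zero => intro f _; simp
        | succ k ih =>
          intro f hf
          rw [iteratedDeriv_succ, ih f hf]
          funext s
          have h2 : DifferentiableAt ℝ (iteratedDeriv k f) s :=
            (hf.differentiable_iteratedDeriv k (by exact_mod_cast WithTop.coe_lt_top _)).differentiableAt
          rw [iteratedDeriv_succ]
          exact h2.hasDerivAt.ofReal_comp.deriv
      exact congrFun (this k _ hsm) s
    have e2 : iteratedDeriv k (fun s => deriv Ψ s / G) s = iteratedDeriv (k + 1) Ψ s / G := by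
      have : (fun s => deriv Ψ s / G) = fun s => G⁻¹ * deriv Ψ s := by
        funext s
        ring
      rw [this, iteratedDeriv_succ']
      have h3 : ContDiffAt ℝ k (deriv Ψ) s := by
        have h1 : ContDiff ℝ (∞ + 1) Ψ := by simpa using hΨ
        exact ((contDiff_succ_iff_deriv.1 h1).2.2.contDiffAt).of_le (mod_cast le_top)
      rw [iteratedDeriv_const_mul G⁻¹ h3]
      ring
    rw [e1, e2, Complex.norm_real, norm_div, Real.norm_eq_abs, Real.norm_of_nonneg hG.le,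
      div_le_iff₀ hG]
    exact hu k hk s hs'
  have h1 := hm h Ψ G hG ⟨hh.contDiffOn, fun k hk s hs => hb k hk s (abs_lt.2 hs)⟩ hz hΨ hP
    fun s hs => ?_
  · refine h1.trans (mul_le_mul_of_nonneg_right (by linarith) (by positivity))
  · rw [Complex.norm_real, norm_div, Real.norm_eq_abs, Real.norm_of_nonneg hG.le,
      le_div_iff₀ hG]
    exact hl s (abs_lt.2 hs)

/-- Non stationary phase, without lower bound for `G`. -/
theorem nsp' (N : ℕ) (A c : ℝ) (hc : 0 < c) : ∃ C : ℝ, 0 < C ∧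
    ∀ (h : ℝ → ℂ) (Ψ : ℝ → ℝ) (G : ℝ), 0 ≤ G → ContDiff ℝ ∞ h → ContDiff ℝ ∞ Ψ →
      (∀ s : ℝ, 1 < |s| → h s = 0) →
      (∀ k ≤ N, ∀ s : ℝ, |s| < 2 → ‖iteratedDeriv k h s‖ ≤ A) →
      (∀ s : ℝ, |s| < 2 → c * G ≤ |deriv Ψ s|) →
      (∀ k ≤ N, ∀ s : ℝ, |s| < 2 → |iteratedDeriv (k + 1) Ψ s| ≤ A * G) →
      ‖∫ s : ℝ, h s * cexp (I * Ψ s)‖ ≤ C * ((1 + G)⁻¹) ^ N := by
  obtain ⟨C, hC, hm⟩ := nsp N A c hc
  refine ⟨2 ^ N * (C + 2 * |A|), by positivity, fun h Ψ G hG hh hΨ hz hb hl hu => ?_⟩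
  by_cases hG1 : 1 ≤ G
  · refine (hm h Ψ G (by linarith) hh hΨ hz hb hl hu).trans ?_
    have h1 : G⁻¹ ≤ 2 * (1 + G)⁻¹ := by
      rw [← div_eq_mul_inv, le_div_iff₀ (by linarith), inv_mul_le_iff₀ (by linarith)]
      linarith
    calc C * G⁻¹ ^ N ≤ C * (2 * (1 + G)⁻¹) ^ N := by gcongr
      _ = 2 ^ N * C * ((1 + G)⁻¹) ^ N := by rw [mul_pow]; ring
      _ ≤ 2 ^ N * (C + 2 * |A|) * ((1 + G)⁻¹) ^ N := by
        gcongr
        linarith [abs_nonneg A]
  · have hce : Continuous fun s : ℝ => cexp (I * Ψ s) := by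
      have := hΨ.continuous
      fun_prop
    have h1 : ∫ s, h s * cexp (I * Ψ s) = ∫ s in Icc (-1 : ℝ) 1, h s * cexp (I * Ψ s) := by
      symm
      refine setIntegral_eq_integral_of_forall_compl_eq_zero fun s hs => ?_
      rw [hz s ?_, zero_mul]
      by_contra hcn
      rw [not_lt, abs_le] at hcn
      exact hs hcn
    have h2 : ‖∫ s in Icc (-1 : ℝ) 1, h s * cexp (I * Ψ s)‖ ≤
        |A| * (volume (Icc (-1 : ℝ) 1)).toReal := by
      refine norm_setIntegral_le_of_norm_le_const (by simp) fun s hs => ?_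
      rw [norm_mul, mul_comm I, norm_exp_ofReal_mul_I, mul_one]
      have := hb 0 (Nat.zero_le _) s (abs_lt.2 ⟨by linarith [hs.1], by linarith [hs.2]⟩)
      rw [iteratedDeriv_zero] at this
      exact this.trans (le_abs_self A)
    rw [h1]
    refine h2.trans ?_
    rw [Real.volume_Icc]
    have h3 : (1 : ℝ) ≤ 2 ^ N * ((1 + G)⁻¹) ^ N := by
      rw [← mul_pow]
      refine one_le_pow₀ ?_
      rw [← div_eq_mul_inv, le_div_iff₀ (by linarith)]
      linarith [not_le.1 hG1]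
    have h4 : |A| * (ENNReal.ofReal (1 - -1)).toReal = 2 * |A| := by
      norm_num
      ring
    rw [h4]
    calc 2 * |A| ≤ (C + 2 * |A|) * 1 := by linarith
      _ ≤ (C + 2 * |A|) * (2 ^ N * ((1 + G)⁻¹) ^ N) := by
        gcongr
      _ = 2 ^ N * (C + 2 * |A|) * ((1 + G)⁻¹) ^ N := by ring

end Pool.Agent.H27.L1.H87.GHK
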