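import Pool.Agent.H27.L1.H87.GHK.NSP

/-!
# Non stationary phase in one variable, the phase smooth only near the support
-/

set_option autoImplicit false

open MeasureTheory Set Filter Topology Complex
open scoped ContDiff

namespace Pool.Agent.H27.L1.H87.GHK

theorem Zr.mulc {f e : ℝ → ℂ} (hf : Continuous f) (hz : Zr f) (he : ContinuousOn e U) :
    Continuous fun s => f s * e s := by
  refine continuous_iff_continuousAt.2 fun s => ?_
  rcases out_or s with hs | hs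
  · exact hf.continuousAt.mul (he.continuousAt (isOpen_U.mem_nhds hs))
  · have h1 : (fun s => f s * e s) =ᶠ[𝓝 s] fun _ => (0 : ℂ) := by
      filter_upwards [hz.ev hs] with x hx
      rw [hx, zero_mul]
    exact (continuousAt_const (y := (0 : ℂ))).congr h1.symm

theorem Zr.mulz {f e : ℝ → ℂ} (hz : Zr f) : Zr fun s => f s * e s := fun s hs => by
  show f s * e s = 0
  rw [hz s hs, zero_mul]

theorem Zr.mulint {f e : ℝ → ℂ} (hf : Continuous f) (hz : Zr f) (he : ContinuousOn e U) :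
    Integrable fun s => f s * e s :=
  (hz.mulc hf he).integrable_of_hasCompactSupport (Zr.mulz (e := e) hz).cpt

theorem zero_bd {A : ℝ} {h : ℝ → ℂ} {Ψ : ℝ → ℝ} (hz : Zr h) (hb : ∀ s ∈ U, ‖h s‖ ≤ A) :
    ‖∫ s, h s * cexp (I * Ψ s)‖ ≤ 2 * |A| := by
  have h1 : ∫ s, h s * cexp (I * Ψ s) = ∫ s in Icc (-1 : ℝ) 1, h s * cexp (I * Ψ s) := by
    symm
    refine setIntegral_eq_integral_of_forall_compl_eq_zero fun s hs => ?_
    rw [hz s ?_, zero_mul]
    by_contra hcn
    rw [not_lt, abs_le] at hcn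
    exact hs hcn
  rw [h1]
  have h2 : ‖∫ s in Icc (-1 : ℝ) 1, h s * cexp (I * Ψ s)‖ ≤
      |A| * (volume (Icc (-1 : ℝ) 1)).toReal := by
    refine norm_setIntegral_le_of_norm_le_const (by simp) fun s hs => ?_
    rw [norm_mul, mul_comm I, norm_exp_ofReal_mul_I, mul_one]
    have := hb s (by unfold U; constructor <;> linarith [hs.1, hs.2])
    exact this.trans (le_abs_self A)
  refine h2.trans (le_of_eq ?_)
  rw [Real.volume_Icc]
  norm_num
  ring

theorem main2 (c : ℝ) (hc : 0 < c) : ∀ (N : ℕ) (A : ℝ), ∃ C : ℝ, 0 ≤ C ∧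
    ∀ (h : ℝ → ℂ) (Ψ : ℝ → ℝ) (G : ℝ), 0 < G → Bn N A h → Zr h → ContDiffOn ℝ ∞ Ψ U →
      Bn N A (fun s => ((deriv Ψ s / G : ℝ) : ℂ)) → (∀ s ∈ U, c ≤ ‖((deriv Ψ s / G : ℝ) : ℂ)‖) →
      ‖∫ s, h s * cexp (I * Ψ s)‖ ≤ C * (G⁻¹) ^ N := by
  intro N
  induction N with
  | zero =>
    intro A
    refine ⟨2 * |A|, by positivity, fun h Ψ G hG hB hZ hΨ hP hL => ?_⟩
    rw [pow_zero, mul_one]
    refine zero_bd hZ fun s hs => ?_
    have := hB.bd 0 le_rfl s hs
    rwa [iteratedDeriv_zero] at this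
  | succ N ih =>
    intro A
    obtain ⟨A1, h1⟩ := Bn.div (N + 1) A c hc
    obtain ⟨C, hC, h2⟩ := ih (max A A1)
    refine ⟨C, hC, fun h Ψ G hG hB hZ hΨ hP hL => ?_⟩
    set g : ℝ → ℂ := fun s => ((deriv Ψ s / G : ℝ) : ℂ) with hg
    have hq := h1 h g hB hP hL
    have hZq : Zr (fun s => h s / g s) := fun s hs => by
      show h s / g s = 0
      rw [hZ s hs, zero_div]
    have h3 := h2 (deriv fun s => h s / g s) Ψ G hG (hq.dv.mono le_rfl (le_max_right _ _))
      hZq.dv hΨ (hP.mono (Nat.le_succ N) (le_max_left _ _)) hL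
    -- integration by parts
    have hΨd : ∀ s ∈ U, HasDerivAt Ψ (deriv Ψ s) s := fun s hs =>
      ((hΨ.contDiffAt (isOpen_U.mem_nhds hs)).differentiableAt (by simp)).hasDerivAt
    have hed : ∀ s ∈ U, HasDerivAt (fun s : ℝ => cexp (I * Ψ s))
        (cexp (I * Ψ s) * (I * (deriv Ψ s : ℝ))) s := fun s hs =>
      ((hΨd s hs).ofReal_comp.const_mul I).cexp
    have hF : ∀ s : ℝ, HasDerivAt (fun s : ℝ => h s / g s * cexp (I * Ψ s))
        (deriv (fun s => h s / g s) s * cexp (I * Ψ s) + I * G * (h s * cexp (I * Ψ s))) s := by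
      intro s
      rcases out_or s with hs | hs
      · have h4 := (diff_all hq hZq s).mul (hed s hs)
        refine h4.congr_deriv ?_
        congr 1
        have hgne : g s ≠ 0 := by
          intro h0
          have := hL s hs
          rw [show ((deriv Ψ s / G : ℝ) : ℂ) = g s from rfl, h0, norm_zero] at this
          linarith
        have e : ((deriv Ψ s : ℝ) : ℂ) = G * g s := by
          rw [hg]
          push_cast
          have : (G : ℂ) ≠ 0 := by exact_mod_cast hG.ne'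
          field_simp
        rw [e]
        field_simp
      · have h5 : (fun s : ℝ => h s / g s * cexp (I * Ψ s)) =ᶠ[𝓝 s] fun _ => (0 : ℂ) :=
          (Zr.mulz (e := fun s => cexp (I * Ψ s)) hZq).ev hs
        have h6 : deriv (fun s => h s / g s) s * cexp (I * Ψ s) +
            I * G * (h s * cexp (I * Ψ s)) = 0 := by
          rw [hZq.dv s hs, hZ s hs]
          ring
        rw [h6]
        exact (hasDerivAt_const s (0 : ℂ)).congr_of_eventuallyEq h5
    have hce : ContinuousOn (fun s : ℝ => cexp (I * Ψ s)) U := by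
      have := hΨ.continuousOn
      fun_prop
    have hi1 : Integrable fun s : ℝ => h s / g s * cexp (I * Ψ s) :=
      Zr.mulint (cont_all hq hZq) hZq hce
    have hi2 : Integrable fun s : ℝ => deriv (fun s => h s / g s) s * cexp (I * Ψ s) :=
      Zr.mulint (cont_all hq.dv hZq.dv) hZq.dv hce
    have hi3 : Integrable fun s : ℝ => h s * cexp (I * Ψ s) :=
      Zr.mulint (cont_all hB hZ) hZ hce
    have h5 := integral_eq_zero_of_hasDerivAt_of_integrable hF (hi2.add (hi3.const_mul (I * G)))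
      hi1
    rw [integral_add hi2 (hi3.const_mul _), integral_const_mul] at h5
    have h6 : ‖∫ s, h s * cexp (I * Ψ s)‖ = G⁻¹ *
        ‖∫ s, deriv (fun s => h s / g s) s * cexp (I * Ψ s)‖ := by
      have h7 : ∫ s, deriv (fun s => h s / g s) s * cexp (I * Ψ s) =
          - (I * G * ∫ s, h s * cexp (I * Ψ s)) := by
        linear_combination h5
      rw [h7, norm_neg, norm_mul, norm_mul, norm_I, one_mul, Complex.norm_real,
        Real.norm_of_nonneg hG.le, ← mul_assoc, inv_mul_cancel₀ hG.ne', one_mul]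
    rw [h6, pow_succ]
    calc G⁻¹ * ‖∫ s, deriv (fun s => h s / g s) s * cexp (I * Ψ s)‖ ≤ G⁻¹ * (C * G⁻¹ ^ N) :=
          mul_le_mul_of_nonneg_left h3 (inv_nonneg.2 hG.le)
      _ = C * (G⁻¹ ^ N * G⁻¹) := by ring

theorem iter_sm {f : ℝ → ℝ} (hf : ContDiffOn ℝ ∞ f U) (k : ℕ) :
    ContDiffOn ℝ ∞ (iteratedDeriv k f) U := by
  induction k with
  | zero => simpa using hf
  | succ k ih =>
    rw [iteratedDeriv_succ]
    exact ContDiffOn.deriv_of_isOpen (n := ∞) ih isOpen_U (by simp)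

theorem iter_ofReal {f : ℝ → ℝ} (hf : ContDiffOn ℝ ∞ f U) (k : ℕ) :
    ∀ s ∈ U, iteratedDeriv k (fun s => ((f s : ℝ) : ℂ)) s = ((iteratedDeriv k f s : ℝ) : ℂ) := by
  induction k with
  | zero => intro s _; simp
  | succ k ih =>
    intro s hs
    rw [iteratedDeriv_succ, iteratedDeriv_succ]
    have h1 : iteratedDeriv k (fun s => ((f s : ℝ) : ℂ)) =ᶠ[𝓝 s]
        fun s => ((iteratedDeriv k f s : ℝ) : ℂ) := by
      filter_upwards [isOpen_U.mem_nhds hs] with x hx using ih x hx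
    rw [h1.deriv_eq]
    have h2 : DifferentiableAt ℝ (iteratedDeriv k f) s :=
      ((iter_sm hf k).contDiffAt (isOpen_U.mem_nhds hs)).differentiableAt (by simp)
    exact h2.hasDerivAt.ofReal_comp.deriv

/-- Non stationary phase, phase derivative at least `c G`, smooth on `(-2, 2)`. -/
theorem nsp2 (N : ℕ) (A c : ℝ) (hc : 0 < c) : ∃ C : ℝ, 0 < C ∧
    ∀ (h : ℝ → ℂ) (Ψ : ℝ → ℝ) (G : ℝ), 0 ≤ G → ContDiff ℝ ∞ h → ContDiffOn ℝ ∞ Ψ (Ioo (-2) 2) →
      (∀ s : ℝ, 1 ≤ |s| → h s = 0) →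
      (∀ k ≤ N, ∀ s : ℝ, |s| < 2 → ‖iteratedDeriv k h s‖ ≤ A) →
      (∀ s : ℝ, |s| < 2 → c * G ≤ |deriv Ψ s|) →
      (∀ k ≤ N, ∀ s : ℝ, |s| < 2 → |iteratedDeriv (k + 1) Ψ s| ≤ A * G) →
      ‖∫ s : ℝ, h s * cexp (I * Ψ s)‖ ≤ C * ((1 + G) ^ N)⁻¹ := by
  obtain ⟨C, hC, hm⟩ := main2 c hc N A
  refine ⟨2 ^ N * (C + 1 + 2 * |A|), by positivity, fun h Ψ G hG hh hΨ hz0 hb hl hu => ?_⟩
  have hz : Zr h := fun s hs => hz0 s hs.le
  rw [← inv_pow]
  by_cases hG1 : 1 ≤ G
  · have hG0 : 0 < G := by linarith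
    have hG' : 0 < G⁻¹ := inv_pos.2 hG0
    have hd : ContDiffOn ℝ ∞ (deriv Ψ) U := ContDiffOn.deriv_of_isOpen (n := ∞) hΨ isOpen_U (by simp)
    have hsm : ContDiffOn ℝ ∞ (fun s => deriv Ψ s / G) U := hd.div_const G
    have hP : Bn N A (fun s => ((deriv Ψ s / G : ℝ) : ℂ)) := by
      refine ⟨Complex.ofRealCLM.contDiff.comp_contDiffOn hsm, fun k hk s hs => ?_⟩
      have hs' : |s| < 2 := abs_lt.2 hs
      have e2 : iteratedDeriv k (fun s => deriv Ψ s / G) s = iteratedDeriv (k + 1) Ψ s / G := by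
        have : (fun s => deriv Ψ s / G) = fun s => G⁻¹ * deriv Ψ s := by
          funext s
          ring
        rw [this, iteratedDeriv_succ']
        have h3 : ContDiffAt ℝ k (deriv Ψ) s :=
          (hd.contDiffAt (isOpen_U.mem_nhds hs)).of_le (mod_cast le_top)
        rw [iteratedDeriv_const_mul G⁻¹ h3]
        ring
      rw [iter_ofReal hsm k s hs, e2, Complex.norm_real, norm_div, Real.norm_eq_abs,
        Real.norm_of_nonneg hG0.le, div_le_iff₀ hG0]
      exact hu k hk s hs'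
    have h1 := hm h Ψ G hG0 ⟨hh.contDiffOn, fun k hk s hs => hb k hk s (abs_lt.2 hs)⟩ hz hΨ hP
      fun s hs => ?_
    · refine h1.trans ?_
      have h1 : G⁻¹ ≤ 2 * (1 + G)⁻¹ := by
        rw [← div_eq_mul_inv, le_div_iff₀ (by linarith), inv_mul_le_iff₀ (by linarith)]
        linarith
      calc C * G⁻¹ ^ N ≤ C * (2 * (1 + G)⁻¹) ^ N := by gcongr
        _ = 2 ^ N * C * ((1 + G)⁻¹) ^ N := by rw [mul_pow]; ring
        _ ≤ 2 ^ N * (C + 1 + 2 * |A|) * ((1 + G)⁻¹) ^ N := by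
          gcongr
          linarith [abs_nonneg A]
    · rw [Complex.norm_real, norm_div, Real.norm_eq_abs, Real.norm_of_nonneg hG0.le,
        le_div_iff₀ hG0]
      exact hl s (abs_lt.2 hs)
  · have h2 : ‖∫ s, h s * cexp (I * Ψ s)‖ ≤ 2 * |A| := by
      refine zero_bd hz fun s hs => ?_
      have := hb 0 (Nat.zero_le _) s (abs_lt.2 hs)
      rwa [iteratedDeriv_zero] at this
    refine h2.trans ?_
    have h3 : (1 : ℝ) ≤ 2 ^ N * ((1 + G)⁻¹) ^ N := by
      rw [← mul_pow]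
      refine one_le_pow₀ ?_
      rw [← div_eq_mul_inv, le_div_iff₀ (by linarith)]
      linarith [not_le.1 hG1]
    calc 2 * |A| ≤ (C + 1 + 2 * |A|) * 1 := by linarith
      _ ≤ (C + 1 + 2 * |A|) * (2 ^ N * ((1 + G)⁻¹) ^ N) := by
        gcongr
      _ = 2 ^ N * (C + 1 + 2 * |A|) * ((1 + G)⁻¹) ^ N := by ring

end Pool.Agent.H27.L1.H87.GHK
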